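import Pool.Agent.Lib.MP_6e9c6d_nt.Quad

/-!
# Elements `x` of a quadratic field such that `(a x + b)^q / x^N` is rational

PROOF. `u = s + δ`, `v = c u²`; `a v^(N-q) = P₁ + Q₁ δ`, `b v^N = P₂ + Q₂ δ`, `X = -Q₂/Q₁`, `x = X/v^q`. Then
`(a x + b) v^N = X a v^(N-q) + b v^N = X P₁ + P₂ =: R` is rational and `(a x + b)^q / x^N = R^q / X^N`. For odd `q` the number
`c x = X (c^((1-q)/2) / u^q)²` is a square in the field generated by the roots of unity; if `c` is a square there, then `x` is, too.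
For given `x` there are finitely many `s` such that `x v^q` is rational.
-/

set_option autoImplicit false

open Finset

namespace Pool.Agent.Lib.MP_6e9c6d_nt

theorem le_QA (F : IntermediateField ℚ ℂ) (hF : Module.finrank ℚ F = 2) : F ≤ QA := by
  obtain ⟨δ, D, hδF, hδ, hδq, hco⟩ := quad_form F hF
  intro z hz
  obtain ⟨p, q, rfl⟩ := hco z hz
  exact add_mem (QA.algebraMap_mem p) (mul_mem (QA.algebraMap_mem q) (rat_sqrt D hδ))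

/-- for all but finitely many `s` the number `a (c (s + δ)²)^m` is not rational -/
theorem cofin2 {F : IntermediateField ℚ ℂ} {δ : ℂ} {D : ℚ} (hδ : δ ^ 2 = D) (hδq : ∀ q : ℚ, δ ≠ q)
    (hco : ∀ z ∈ F, ∃ p q : ℚ, z = p + q * δ) {a c : ℂ} (ha : a ∈ F) (hc : c ∈ F) (ha0 : a ≠ 0) (hc0 : c ≠ 0)
    {m : ℕ} (hm : 0 < m) : {s : ℕ | ∃ r : ℚ, a * (c * ((s : ℂ) + δ) ^ 2) ^ m = r}.Finite := by
  have hδ0 : δ ≠ 0 := fun h => hδq 0 (by rw [h, Rat.cast_zero])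
  obtain ⟨a1, a2, ha12⟩ := hco (a * c ^ m) (mul_mem ha (pow_mem hc m))
  have hCa : Cj δ (a * c ^ m) (a1 - a2 * δ) := ⟨a1, a2, ha12, rfl⟩
  refine (cofin hδ0 (mul_ne_zero ha0 (pow_ne_zero m hc0)) (a' := (a1 - a2 * δ)) (m := 2 * m) (by omega)).subset ?_
  rintro s ⟨r, hr⟩
  have hCu : Cj δ ((s : ℂ) + δ) ((s : ℂ) - δ) := ⟨s, 1, by push_cast; ring, by push_cast; ring⟩
  obtain ⟨p, q, h1, h2⟩ := hCa.mul hδ (hCu.pow hδ (2 * m))
  rw [mul_pow, ← mul_assoc, ← pow_mul] at hr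
  have h3 : (p : ℂ) + q * δ = r + (0 : ℚ) * δ := by
    rw [← h1, hr, Rat.cast_zero, zero_mul, add_zero]
  obtain ⟨-, h4⟩ := coef_eq hδq h3
  show a * c ^ m * ((s : ℂ) + δ) ^ (2 * m) = (a1 - a2 * δ) * ((s : ℂ) - δ) ^ (2 * m)
  rw [h1, h2, h4]
  simp

theorem aeval_sq {z : ℂ} {r : ℚ} (hz : z = r) (h : Polynomial ℚ) : ∃ y ∈ QA, y ^ 2 = Polynomial.aeval z h := by
  obtain ⟨y, hy⟩ := IsAlgClosed.exists_pow_nat_eq ((Polynomial.eval r h : ℚ) : ℂ) (n := 2) (by norm_num)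
  refine ⟨y, rat_sqrt _ hy, ?_⟩
  rw [hy, hz]
  exact (Polynomial.aeval_algebraMap_apply_eq_algebraMap_eval (A := ℂ) r h).symm

theorem master (F : IntermediateField ℚ ℂ) (hF : Module.finrank ℚ F = 2) {q N : ℕ} (hq : 0 < q) (hqN : q < N)
    {a b c : ℂ} (ha : a ∈ F) (hb : b ∈ F) (hc : c ∈ F) (ha0 : a ≠ 0) (hb0 : b ≠ 0) (hc0 : c ≠ 0)
    (hcq : Odd q ∨ ∃ γ ∈ QA, γ ^ 2 = c) :
    {x : ℂ | x ∈ F ∧ x ≠ 0 ∧ (∃ w ∈ QA, w ^ 2 = c * x) ∧ (∃ z : ℚ, (a * x + b) ^ q = z * x ^ N) ∧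
      ∀ h : Polynomial ℚ, ∃ y ∈ QA, y ^ 2 = Polynomial.aeval ((a * x + b) ^ q / x ^ N) h}.Infinite := by
  obtain ⟨δ, D, hδF, hδ, hδq, hco⟩ := quad_form F hF
  intro hT
  set T := {x : ℂ | x ∈ F ∧ x ≠ 0 ∧ (∃ w ∈ QA, w ^ 2 = c * x) ∧ (∃ z : ℚ, (a * x + b) ^ q = z * x ^ N) ∧
      ∀ h : Polynomial ℚ, ∃ y ∈ QA, y ^ 2 = Polynomial.aeval ((a * x + b) ^ q / x ^ N) h} with hTd
  have hu0 : ∀ s : ℕ, (s : ℂ) + δ ≠ 0 := fun s h => hδq (-s) (by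
    push_cast
    linear_combination h)
  have huF : ∀ s : ℕ, (s : ℂ) + δ ∈ F := fun s => add_mem (natCast_mem F s) hδF
  have hf1 := cofin2 hδ hδq hco ha hc ha0 hc0 (m := N - q) (by omega)
  have hf2 := cofin2 hδ hδq hco hb hc hb0 hc0 (m := N) (by omega)
  have hf3 : (⋃ x ∈ T, {s : ℕ | ∃ r : ℚ, x * (c * ((s : ℂ) + δ) ^ 2) ^ q = r}).Finite :=
    hT.biUnion fun x hx => cofin2 hδ hδq hco hx.1 hc hx.2.1 hc0 hq
  have hG := ((hf1.union hf2).union hf3).infinite_compl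
  obtain ⟨s, hs⟩ := hG.nonempty
  simp only [Set.mem_compl_iff, Set.mem_union, not_or] at hs
  obtain ⟨⟨hs1, hs2⟩, hs3⟩ := hs
  apply hs3
  set u : ℂ := (s : ℂ) + δ with hu
  set v : ℂ := c * u ^ 2 with hv
  have hv0 : v ≠ 0 := mul_ne_zero hc0 (pow_ne_zero 2 (hu0 s))
  have hvF : v ∈ F := mul_mem hc (pow_mem (huF s) 2)
  have huQ : u ∈ QA := le_QA F hF (huF s)
  have hcQ : c ∈ QA := le_QA F hF hc
  obtain ⟨P1, Q1, h1⟩ := hco (a * v ^ (N - q)) (mul_mem ha (pow_mem hvF _))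
  obtain ⟨P2, Q2, h2⟩ := hco (b * v ^ N) (mul_mem hb (pow_mem hvF _))
  have hQ1 : Q1 ≠ 0 := fun h => hs1 ⟨P1, by rw [h1, h, Rat.cast_zero, zero_mul, add_zero]⟩
  have hQ2 : Q2 ≠ 0 := fun h => hs2 ⟨P2, by rw [h2, h, Rat.cast_zero, zero_mul, add_zero]⟩
  obtain ⟨X, hX⟩ : ∃ X : ℚ, X = -Q2 / Q1 := ⟨_, rfl⟩
  have hX0 : X ≠ 0 := by
    rw [hX]
    exact div_ne_zero (neg_ne_zero.2 hQ2) hQ1
  have hXc : (X : ℂ) ≠ 0 := by exact_mod_cast hX0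
  have hXQ : (X : ℂ) * Q1 + Q2 = 0 := by
    have : X * Q1 + Q2 = 0 := by
      rw [hX, div_mul_cancel₀ _ hQ1]
      ring
    exact_mod_cast this
  obtain ⟨g, hg⟩ := IsAlgClosed.exists_pow_nat_eq (X : ℂ) (n := 2) (by norm_num)
  have hgQ : g ∈ QA := rat_sqrt X hg
  have hvq : v ^ q ≠ 0 := pow_ne_zero q hv0
  have hax : a * ((X : ℂ) / v ^ q) + b = ((X * P1 + P2 : ℚ) : ℂ) / v ^ N := by
    have e1 : v ^ N = v ^ q * v ^ (N - q) := by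
      rw [← pow_add]
      congr 1
      omega
    rw [eq_div_iff (pow_ne_zero N hv0)]
    have e2 : (X : ℂ) / v ^ q * v ^ N = X * v ^ (N - q) := by
      rw [e1, ← mul_assoc, div_mul_cancel₀ _ hvq]
    push_cast
    linear_combination a * e2 + (X : ℂ) * h1 + h2 + δ * hXQ
  have hz : (a * ((X : ℂ) / v ^ q) + b) ^ q = (((X * P1 + P2) ^ q / X ^ N : ℚ) : ℂ) * ((X : ℂ) / v ^ q) ^ N := by
    have e5 : ((X : ℂ) / v ^ q) ^ N = (X : ℂ) ^ N / (v ^ N) ^ q := by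
      rw [div_pow, ← pow_mul, ← pow_mul, mul_comm q N]
    rw [hax, e5, div_pow]
    push_cast
    field_simp
  have hxT : (X : ℂ) / v ^ q ∈ T := by
    refine ⟨div_mem (F.algebraMap_mem X) (pow_mem hvF q), div_ne_zero hXc hvq, ?_, ⟨_, hz⟩, ?_⟩
    · rcases hcq with ⟨j, hj⟩ | ⟨γ, hγ, hγc⟩
      · refine ⟨g / (c ^ j * u ^ (2 * j + 1)), div_mem hgQ (mul_mem (pow_mem hcQ _) (pow_mem huQ _)), ?_⟩
        have hu0' : u ≠ 0 := hu0 s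
        rw [div_pow, hg, hv, hj, mul_pow c, mul_pow (c ^ j)]
        rw [show (u ^ 2) ^ (2 * j + 1) = (u ^ (2 * j + 1)) ^ 2 by rw [← pow_mul, ← pow_mul, mul_comm],
          show c ^ (2 * j + 1) = c * (c ^ j) ^ 2 by rw [← pow_mul, pow_succ, mul_comm j 2, mul_comm]]
        field_simp
      · refine ⟨γ * g / (γ * u) ^ q, div_mem (mul_mem hγ hgQ) (pow_mem (mul_mem hγ huQ) _), ?_⟩
        have e3 : ((γ * u) ^ q) ^ 2 = v ^ q := by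
          rw [← pow_mul, mul_comm q 2, pow_mul, mul_pow γ, hγc]
        rw [div_pow, mul_pow, hg, hγc, e3, mul_div_assoc]
    · refine aeval_sq (r := (X * P1 + P2) ^ q / X ^ N) ?_
      rw [hz, mul_div_assoc, div_self (pow_ne_zero N (div_ne_zero hXc hvq)), mul_one]
  refine Set.mem_biUnion hxT ⟨X, ?_⟩
  exact div_mul_cancel₀ _ hvq

end Pool.Agent.Lib.MP_6e9c6d_nt
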