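import Pool.Agent.Lib.MP_6e9c6d_nt.Sqrt

/-!
# Quadratic subfields of the complex numbers
-/

set_option autoImplicit false

open Finset

namespace Pool.Agent.Lib.MP_6e9c6d_nt

/-- a quadratic field is `ℚ + ℚ δ`, `δ² = D` rational, `δ` not rational -/
theorem quad_form (F : IntermediateField ℚ ℂ) (hF : Module.finrank ℚ F = 2) :
    ∃ (δ : ℂ) (D : ℚ), δ ∈ F ∧ δ ^ 2 = D ∧ (∀ q : ℚ, δ ≠ q) ∧ ∀ z ∈ F, ∃ p q : ℚ, z = p + q * δ := by
  have hfd : FiniteDimensional ℚ F := Module.finite_of_finrank_eq_succ hF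
  have hbot : F ≠ ⊥ := by
    rintro rfl
    rw [IntermediateField.finrank_bot] at hF
    norm_num at hF
  obtain ⟨α, hα, hα2⟩ : ∃ α ∈ F, α ∉ (⊥ : IntermediateField ℚ ℂ) := by
    by_contra h
    push Not at h
    exact hbot (le_antisymm (fun z hz => h z hz) bot_le)
  have hαq : ∀ q : ℚ, α ≠ q := fun q e => hα2 (by
    rw [e]
    exact (⊥ : IntermediateField ℚ ℂ).algebraMap_mem q)
  have hli : LinearIndependent ℚ ![(1 : F), ⟨α, hα⟩] := by
    rw [LinearIndependent.pair_iff]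
    intro s t hst
    have h1 : (s : ℂ) + t * α = 0 := by
      have h2 := congrArg (fun z : F => (z : ℂ)) hst
      simpa [Algebra.smul_def] using h2
    by_cases ht : t = 0
    · rw [ht, Rat.cast_zero, zero_mul, add_zero] at h1
      exact ⟨by exact_mod_cast h1, ht⟩
    · exfalso
      apply hαq (-s / t)
      have ht' : (t : ℂ) ≠ 0 := by exact_mod_cast ht
      push_cast
      rw [eq_div_iff ht']
      linear_combination h1
  have hsp : Submodule.span ℚ (Set.range ![(1 : F), ⟨α, hα⟩]) = ⊤ :=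
    hli.span_eq_top_of_card_eq_finrank' (by rw [hF]; simp)
  have hco : ∀ z ∈ F, ∃ p q : ℚ, z = p + q * α := by
    intro z hz
    have h1 : (⟨z, hz⟩ : F) ∈ Submodule.span ℚ (Set.range ![(1 : F), ⟨α, hα⟩]) := by
      rw [hsp]
      exact Submodule.mem_top
    rw [Matrix.range_cons, Matrix.range_cons, Matrix.range_empty, Set.union_empty, Set.singleton_union,
      Submodule.mem_span_pair] at h1
    obtain ⟨p, q, h2⟩ := h1
    refine ⟨p, q, ?_⟩
    have h3 := congrArg (fun z : F => (z : ℂ)) h2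
    simp only [Algebra.smul_def] at h3
    rw [← h3]
    simp
  obtain ⟨p, q, hpq⟩ := hco (α ^ 2) (pow_mem hα 2)
  refine ⟨α - (q / 2 : ℚ), p + q ^ 2 / 4, sub_mem hα (F.algebraMap_mem _), ?_, ?_, ?_⟩
  · push_cast
    linear_combination hpq
  · intro r e
    apply hαq (r + q / 2)
    push_cast at e ⊢
    linear_combination e
  · intro z hz
    obtain ⟨s, t, e⟩ := hco z hz
    refine ⟨s + t * (q / 2), t, ?_⟩
    rw [e]
    push_cast
    ring

/-- `z = p + q δ` and `z' = p - q δ` are conjugate -/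
def Cj (δ z z' : ℂ) : Prop := ∃ p q : ℚ, z = p + q * δ ∧ z' = p - q * δ

theorem Cj.mul {δ : ℂ} {D : ℚ} (hδ : δ ^ 2 = D) {z z' w w' : ℂ} (h1 : Cj δ z z') (h2 : Cj δ w w') :
    Cj δ (z * w) (z' * w') := by
  obtain ⟨p, q, rfl, rfl⟩ := h1
  obtain ⟨r, s, rfl, rfl⟩ := h2
  refine ⟨p * r + q * s * D, p * s + q * r, ?_, ?_⟩
  · push_cast
    linear_combination (q * s : ℂ) * hδ
  · push_cast
    linear_combination (q * s : ℂ) * hδ

theorem Cj.pow {δ : ℂ} {D : ℚ} (hδ : δ ^ 2 = D) {z z' : ℂ} (h1 : Cj δ z z') (m : ℕ) : Cj δ (z ^ m) (z' ^ m) := by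
  induction m with
  | zero => exact ⟨1, 0, by simp, by simp⟩
  | succ m ih =>
    rw [pow_succ, pow_succ]
    exact ih.mul hδ h1

theorem coef_eq {δ : ℂ} (hq : ∀ q : ℚ, δ ≠ q) {p q r s : ℚ} (h : (p : ℂ) + q * δ = r + s * δ) : p = r ∧ q = s := by
  have h1 : q = s := by
    by_contra hne
    have h2 : ((q - s : ℚ) : ℂ) ≠ 0 := by exact_mod_cast sub_ne_zero.2 hne
    apply hq ((r - p) / (q - s))
    push_cast at h2 ⊢
    rw [eq_div_iff h2]
    linear_combination h
  subst h1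
  refine ⟨?_, rfl⟩
  have h3 : (p : ℂ) = r := by linear_combination h
  exact_mod_cast h3

/-- for all but finitely many `s` the second coordinate of `a (s + δ)^m` is not zero -/
theorem cofin {δ : ℂ} (hδ0 : δ ≠ 0) {a a' : ℂ} (ha : a ≠ 0) {m : ℕ} (hm : 0 < m) :
    {s : ℕ | a * ((s : ℂ) + δ) ^ m = a' * ((s : ℂ) - δ) ^ m}.Finite := by
  set P : Polynomial ℂ := Polynomial.C a * (Polynomial.X + Polynomial.C δ) ^ m -
    Polynomial.C a' * (Polynomial.X - Polynomial.C δ) ^ m with hP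
  have hP0 : P ≠ 0 := by
    intro h
    have h1 : Polynomial.eval δ P = 0 := by rw [h, Polynomial.eval_zero]
    rw [hP] at h1
    simp only [Polynomial.eval_sub, Polynomial.eval_mul, Polynomial.eval_C, Polynomial.eval_pow,
      Polynomial.eval_add, Polynomial.eval_X, sub_self, zero_pow hm.ne', mul_zero, sub_zero] at h1
    rcases mul_eq_zero.1 h1 with h2 | h2
    · exact ha h2
    · have h3 : δ + δ = 0 := eq_zero_of_pow_eq_zero h2
      rw [← two_mul] at h3
      rcases mul_eq_zero.1 h3 with h4 | h4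
      · norm_num at h4
      · exact hδ0 h4
  have h5 : (((fun s : ℕ => (s : ℂ)) ⁻¹' {x | P.IsRoot x})).Finite :=
    (Polynomial.finite_setOf_isRoot hP0).preimage (Nat.cast_injective.injOn)
  refine h5.subset fun s hs => ?_
  show Polynomial.eval (s : ℂ) P = 0
  rw [hP]
  simp only [Polynomial.eval_sub, Polynomial.eval_mul, Polynomial.eval_C, Polynomial.eval_pow,
    Polynomial.eval_add, Polynomial.eval_X]
  exact sub_eq_zero.2 hs

end Pool.Agent.Lib.MP_6e9c6d_nt
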