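import Mathlib

/-!
# Square roots of rational numbers are in the field generated by the roots of unity
-/

set_option autoImplicit false

open Finset

namespace Pool.Agent.Lib.MP_6e9c6d_nt

/-- the field generated by the roots of unity -/
noncomputable def QA : IntermediateField ℚ ℂ := IntermediateField.adjoin ℚ {z : ℂ | ∃ m : ℕ, 0 < m ∧ z ^ m = 1}

theorem root_mem {z : ℂ} {m : ℕ} (hm : 0 < m) (hz : z ^ m = 1) : z ∈ QA :=
  IntermediateField.subset_adjoin _ _ ⟨m, hm, hz⟩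

theorem I_mem : Complex.I ∈ QA := root_mem (m := 4) (by norm_num) (by
  rw [show (4 : ℕ) = 2 * 2 from rfl, pow_mul, Complex.I_sq]
  norm_num)

theorem two_sqrt : ∃ z ∈ QA, z ^ 2 = (2 : ℂ) := by
  obtain ⟨w, hw⟩ := IsAlgClosed.exists_pow_nat_eq Complex.I (n := 2) (by norm_num)
  have hw0 : w ≠ 0 := by
    rintro rfl
    apply Complex.I_ne_zero
    rw [← hw]
    norm_num
  have h1 : w ∈ QA := root_mem (m := 8) (by norm_num) (by
    rw [show (8 : ℕ) = 2 * 4 from rfl, pow_mul, hw, show (4 : ℕ) = 2 * 2 from rfl, pow_mul, Complex.I_sq]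
    norm_num)
  refine ⟨(1 + Complex.I) / w, div_mem (add_mem (one_mem _) I_mem) h1, ?_⟩
  rw [div_pow, hw, add_sq, Complex.I_sq]
  field_simp
  ring_nf

theorem odd_sqrt {p : ℕ} (hp : p.Prime) (h2 : p ≠ 2) : ∃ z ∈ QA, z ^ 2 = (p : ℂ) := by
  have : Fact p.Prime := ⟨hp⟩
  have : NeZero p := ⟨hp.ne_zero⟩
  set χ : MulChar (ZMod p) ℂ := (quadraticChar (ZMod p)).ringHomComp (Int.castRingHom ℂ) with hχ
  have h1 : χ ≠ 1 := (MulChar.ringHomComp_ne_one_iff Int.cast_injective).2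
    (quadraticChar_ne_one (by rwa [ZMod.ringChar_zmod_n]))
  have hq : χ.IsQuadratic := (quadraticChar_isQuadratic (ZMod p)).comp _
  have h3 := gaussSum_sq h1 hq (ZMod.isPrimitive_stdAddChar p)
  rw [ZMod.card] at h3
  have hval : ∀ a : ZMod p, χ a ∈ QA := by
    intro a
    rcases hq a with h | h | h <;> rw [h]
    · exact zero_mem _
    · exact one_mem _
    · exact neg_mem (one_mem _)
  have hg : gaussSum χ (ZMod.stdAddChar (N := p)) ∈ QA := by
    unfold gaussSum
    refine sum_mem fun a _ => mul_mem (hval a) ?_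
    refine root_mem (m := p) hp.pos ?_
    rw [← AddChar.map_nsmul_eq_pow, nsmul_eq_mul, ZMod.natCast_self, zero_mul, AddChar.map_zero_eq_one]
  rcases hq (-1) with h | h | h
  · exfalso
    rw [h, zero_mul] at h3
    have h4 : χ (-1) * χ (-1) = 1 := by rw [← map_mul, neg_mul_neg, one_mul, map_one]
    rw [h, mul_zero] at h4
    exact zero_ne_one h4
  · exact ⟨_, hg, by rw [h3, h, one_mul]⟩
  · refine ⟨Complex.I * gaussSum χ (ZMod.stdAddChar (N := p)), mul_mem I_mem hg, ?_⟩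
    rw [mul_pow, Complex.I_sq, h3, h]
    ring

theorem nat_sqrt (m : ℕ) : ∃ z ∈ QA, z ^ 2 = (m : ℂ) := by
  induction m using induction_on_primes with
  | zero => exact ⟨0, zero_mem _, by norm_num⟩
  | one => exact ⟨1, one_mem _, by norm_num⟩
  | prime_mul p a hp ih =>
    obtain ⟨z, hz, e⟩ := ih
    obtain ⟨w, hw, e'⟩ : ∃ w ∈ QA, w ^ 2 = (p : ℂ) := by
      by_cases h2 : p = 2
      · rw [h2]
        exact two_sqrt
      · exact odd_sqrt hp h2
    exact ⟨w * z, mul_mem hw hz, by rw [mul_pow, e, e']; push_cast; rfl⟩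

/-- square roots of rational numbers are in the field generated by the roots of unity -/
theorem rat_sqrt (r : ℚ) {y : ℂ} (hy : y ^ 2 = r) : y ∈ QA := by
  obtain ⟨w, hw, e⟩ : ∃ w ∈ QA, w ^ 2 = (r : ℂ) := by
    obtain ⟨z, hz, e⟩ := nat_sqrt (r.num.natAbs * r.den)
    have hd : ((r.den : ℕ) : ℂ) ≠ 0 := Nat.cast_ne_zero.2 r.den_ne_zero
    have hr : (r : ℂ) = (r.num : ℂ) / (r.den : ℂ) := Rat.cast_def r
    have hdQ : ((r.den : ℕ) : ℂ) ∈ QA := natCast_mem _ _
    rw [Nat.cast_mul] at e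
    rcases Int.natAbs_eq r.num with h | h
    · have hn : (r.num : ℂ) = ((r.num.natAbs : ℕ) : ℂ) :=
        (congrArg (Int.cast : ℤ → ℂ) h).trans (Int.cast_natCast _)
      refine ⟨z / r.den, div_mem hz hdQ, ?_⟩
      rw [div_pow, e, hr, hn]
      field_simp
    · have hn : (r.num : ℂ) = -((r.num.natAbs : ℕ) : ℂ) := by
        refine (congrArg (Int.cast : ℤ → ℂ) h).trans ?_
        rw [Int.cast_neg, Int.cast_natCast]
      refine ⟨Complex.I * z / r.den, div_mem (mul_mem I_mem hz) hdQ, ?_⟩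
      rw [div_pow, mul_pow, Complex.I_sq, e, hr, hn]
      field_simp
  rcases sq_eq_sq_iff_eq_or_eq_neg.1 (hy.trans e.symm) with h | h
  · rwa [h]
  · rw [h]
    exact neg_mem hw

end Pool.Agent.Lib.MP_6e9c6d_nt
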